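import Mathlib
import Pool.Agent.H595Z.FPNet

set_option autoImplicit false

namespace Pool.Agent.Results.MP_777e28_an.AAllNets

open Pool.Agent.H595Z.FP

/-- For every real Banach space `X`, every net `N` in `X`, every base point and every
`0 < p ≤ 1`, the free `p`-space over `N` is isomorphic to its `ℓ_p`-sum. -/
theorem result (X : Type*) [NormedAddCommGroup X] [NormedSpace ℝ X] [CompleteSpace X]
    (N : Set X) (hN : IsNet N) (x0 : N) (p : ℝ) (hp : 0 < p) (_hp1 : p ≤ 1) :
    IsoToEllSum p x0 :=
  isoToEllSum_of p hp x0 (iso_net N hN x0 p hp)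

end Pool.Agent.Results.MP_777e28_an.AAllNets
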